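import Mathlib

/-!
# Finite multipliers give a positive proportion

If `D` is a finite set of positive integers such that for every positive rational `r` some `d * r`,
`d ∈ D`, satisfies `good`, then for every positive rational `r` a positive proportion of the
integers `n ≤ N` are such that `n * r` satisfies `good`, uniformly in `r`.
-/

set_option autoImplicit false

namespace Pool.Agent.helper15.SP

theorem posDens {good : ℚ → Prop} {D : Finset ℕ} (hD : ∀ d ∈ D, 0 < d)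
    (h : ∀ r : ℚ, 0 < r → ∃ d ∈ D, good ((d : ℚ) * r)) :
    ∃ c : ℝ, 0 < c ∧ ∃ N₀ : ℕ, ∀ r : ℚ, 0 < r → ∀ N : ℕ, N₀ ≤ N →
      c * N ≤ ({n : ℕ | 1 ≤ n ∧ n ≤ N ∧ good ((n : ℚ) * r)}.ncard : ℝ) := by
  classical
  obtain ⟨d₀, hd₀, -⟩ := h 1 one_pos
  set M : ℕ := D.sup id with hM
  have hle : ∀ d ∈ D, d ≤ M := fun d hd => Finset.le_sup (f := id) hd
  have hM1 : 1 ≤ M := le_trans (hD d₀ hd₀) (hle d₀ hd₀)
  have hcard : 0 < D.card := Finset.card_pos.2 ⟨d₀, hd₀⟩
  refine ⟨1 / (2 * M * D.card), by positivity, M, fun r hr N hN => ?_⟩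
  set G : Set ℕ := {n : ℕ | 1 ≤ n ∧ n ≤ N ∧ good ((n : ℚ) * r)} with hG
  have hGf : G.Finite := (Set.finite_Icc 1 N).subset fun n hn => ⟨hn.1, hn.2.1⟩
  -- the multiplier of `m`
  have hch : ∀ m : ℕ, 1 ≤ m → ∃ d ∈ D, good (((d * m : ℕ) : ℚ) * r) := fun m hm => by
    obtain ⟨d, hd, hg⟩ := h ((m : ℚ) * r) (mul_pos (by exact_mod_cast hm) hr)
    refine ⟨d, hd, ?_⟩
    have : ((d * m : ℕ) : ℚ) * r = (d : ℚ) * ((m : ℚ) * r) := by push_cast; ring
    rw [this]
    exact hg
  choose! f hfD hfg using hch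
  let s : Finset ℕ := Finset.Icc 1 (N / M)
  have hmem : ∀ m ∈ s, f m * m ∈ hGf.toFinset := fun m hm => by
    rw [Finset.mem_Icc] at hm
    rw [Set.Finite.mem_toFinset]
    refine ⟨Nat.one_le_iff_ne_zero.2 (Nat.mul_ne_zero (hD _ (hfD m hm.1)).ne'
      (by omega)), ?_, hfg m hm.1⟩
    calc f m * m ≤ M * (N / M) := Nat.mul_le_mul (hle _ (hfD m hm.1)) hm.2
      _ ≤ N := Nat.mul_div_le N M
  have hfib : ∀ n ∈ hGf.toFinset, (s.filter fun m => f m * m = n).card ≤ D.card := fun n hn => by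
    have hn1 : 1 ≤ n := ((Set.Finite.mem_toFinset hGf).1 hn).1
    have h1 : Set.InjOn f (s.filter fun m => f m * m = n : Finset ℕ) := by
      intro a ha b hb hab
      rw [Finset.mem_coe, Finset.mem_filter] at ha hb
      have hfa : 0 < f a := hD _ (hfD a (Finset.mem_Icc.1 ha.1).1)
      have h2 : f a * a = f a * b := by
        rw [ha.2]
        conv_rhs => rw [hab]
        rw [hb.2]
      exact Nat.eq_of_mul_eq_mul_left hfa h2
    rw [← Finset.card_image_of_injOn h1]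
    refine Finset.card_le_card fun d hd => ?_
    rw [Finset.mem_image] at hd
    obtain ⟨m, hm, rfl⟩ := hd
    exact hfD m (Finset.mem_Icc.1 (Finset.mem_filter.1 hm).1).1
  have hc := Finset.card_le_mul_card_image_of_maps_to hmem D.card hfib
  rw [Nat.card_Icc, Nat.add_sub_cancel] at hc
  have hdiv : (N : ℝ) ≤ 2 * M * ((N / M : ℕ) : ℝ) := by
    have h3 : N < M * (N / M) + M := Nat.lt_mul_div_succ N (by omega)
    have h4 : 1 ≤ N / M := (Nat.one_le_div_iff (by omega)).2 hN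
    have h5 : N ≤ 2 * M * (N / M) := by
      calc N ≤ M * (N / M) + M * 1 := by omega
        _ ≤ M * (N / M) + M * (N / M) := Nat.add_le_add_left (Nat.mul_le_mul_left M h4) _
        _ = 2 * M * (N / M) := by ring
    exact_mod_cast h5
  have hc' : ((N / M : ℕ) : ℝ) ≤ D.card * (G.ncard : ℝ) := by
    rw [Set.ncard_eq_toFinset_card G hGf]
    exact_mod_cast hc
  have hMr : (0 : ℝ) < M := by exact_mod_cast hM1
  have hDr : (0 : ℝ) < D.card := by exact_mod_cast hcard
  rw [div_mul_eq_mul_div, one_mul, div_le_iff₀ (by positivity)]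
  calc (N : ℝ) ≤ 2 * M * ((N / M : ℕ) : ℝ) := hdiv
    _ ≤ 2 * M * (D.card * (G.ncard : ℝ)) := by gcongr
    _ = (G.ncard : ℝ) * (2 * M * D.card) := by ring

end Pool.Agent.helper15.SP
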